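import Pool.Agent.X228.PP.Core

/-!
# Inversion sequences avoiding 101 and 201: adding a last entry
-/

namespace Pool.Agent.X228.PP

open Finset Classical

/-- `e` restricted to `{0, ..., n-1}` is an inversion sequence avoiding 101 and 201, and `e` is
zero elsewhere. -/
structure IC (n : ℕ) (e : ℕ → ℕ) : Prop where
  zero : ∀ i, n ≤ i → e i = 0
  le : ∀ i, i < n → e i ≤ i
  av : ∀ i j k, i < j → j < k → k < n → e j < e k → e k ≤ e i → False

/-- The value `v` is forbidden. -/
def bI (n : ℕ) (e : ℕ → ℕ) (v : ℕ) : Prop := ∃ i j, i < j ∧ j < n ∧ e j < v ∧ v ≤ e i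

/-- A new last entry `v`. -/
def app (n : ℕ) (e : ℕ → ℕ) (v : ℕ) : ℕ → ℕ := fun i => if i = n then v else e i

/-- The maximum. -/
def mx (n : ℕ) (e : ℕ → ℕ) : ℕ := (range n).sup e

theorem app_last {n : ℕ} {e : ℕ → ℕ} {v : ℕ} : app n e v n = v := by simp [app]

theorem app_ne {n : ℕ} {e : ℕ → ℕ} {v i : ℕ} (h : i ≠ n) : app n e v i = e i := by simp [app, h]

theorem mx_app (n : ℕ) (e : ℕ → ℕ) (v : ℕ) : mx (n + 1) (app n e v) = max v (mx n e) := by
  unfold mx
  rw [range_add_one, sup_insert, app_last]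
  congr 1
  exact sup_congr rfl fun i hi => app_ne (mem_range.1 hi).ne

theorem le_mx {n : ℕ} {e : ℕ → ℕ} {i : ℕ} (h : i < n) : e i ≤ mx n e :=
  le_sup (f := e) (mem_range.2 h)

theorem exists_mx {n : ℕ} {e : ℕ → ℕ} {w : ℕ} (hw : 0 < w) (h : w ≤ mx n e) :
    ∃ i, i < n ∧ w ≤ e i := by
  obtain ⟨i, hi, h1⟩ := (Finset.le_sup_iff (by simpa using hw)).1 h
  exact ⟨i, mem_range.1 hi, h1⟩

theorem IC.appMem {n : ℕ} {e : ℕ → ℕ} (h : IC n e) {v : ℕ} (hv : v ≤ n) (hb : ¬ bI n e v) :
    IC (n + 1) (app n e v) where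
  zero i hi := by rw [app_ne (by omega)]; exact h.zero i (by omega)
  le i hi := by
    rcases Nat.lt_succ_iff_lt_or_eq.1 hi with h1 | h1
    · rw [app_ne h1.ne]; exact h.le i h1
    · rw [h1, app_last]; exact hv
  av i j k h1 h2 h3 h4 h5 := by
    rw [app_ne (show j ≠ n by omega)] at h4
    rw [app_ne (show i ≠ n by omega)] at h5
    rcases Nat.lt_succ_iff_lt_or_eq.1 h3 with h6 | h6
    · rw [app_ne h6.ne] at h4 h5
      exact h.av i j k h1 h2 h6 h4 h5
    · subst h6
      rw [app_last] at h4 h5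
      exact hb ⟨i, j, h1, h2, h4, h5⟩

theorem IC.exists_app {n : ℕ} {F : ℕ → ℕ} (h : IC (n + 1) F) :
    ∃ e, IC n e ∧ F n ≤ n ∧ ¬ bI n e (F n) ∧ app n e (F n) = F := by
  refine ⟨fun i => if i = n then 0 else F i, ?_, h.le n (by omega), ?_, ?_⟩
  · constructor
    · intro i hi
      by_cases h1 : i = n
      · simp [h1]
      · simp only [h1, if_false]; exact h.zero i (by omega)
    · intro i hi
      simp only [hi.ne, if_false]; exact h.le i (by omega)
    · intro i j k h1 h2 h3 h4 h5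
      simp only [show i ≠ n by omega, show j ≠ n by omega, show k ≠ n by omega, if_false] at h4 h5
      exact h.av i j k h1 h2 (by omega) h4 h5
  · rintro ⟨i, j, h1, h2, h3, h4⟩
    simp only [show i ≠ n by omega, show j ≠ n by omega, if_false] at h3 h4
    exact h.av i j n h1 h2 (by omega) h3 h4
  · funext i
    by_cases h1 : i = n
    · rw [h1, app_last]
    · rw [app_ne h1]; simp [h1]

theorem bI_app {n : ℕ} {e : ℕ → ℕ} {v w : ℕ} :
    bI (n + 1) (app n e v) w ↔ bI n e w ∨ (v < w ∧ w ≤ mx n e) := by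
  constructor
  · rintro ⟨i, j, h1, h2, h3, h4⟩
    rw [app_ne (show i ≠ n by omega)] at h4
    rcases Nat.lt_succ_iff_lt_or_eq.1 h2 with h6 | h6
    · rw [app_ne h6.ne] at h3
      exact Or.inl ⟨i, j, h1, h6, h3, h4⟩
    · rw [h6, app_last] at h3
      exact Or.inr ⟨h3, h4.trans (le_mx (by omega))⟩
  · rintro (⟨i, j, h1, h2, h3, h4⟩ | ⟨h1, h2⟩)
    · refine ⟨i, j, h1, by omega, ?_, ?_⟩
      · rw [app_ne (by omega)]; exact h3
      · rw [app_ne (by omega)]; exact h4
    · obtain ⟨i, hi, h3⟩ := exists_mx (by omega) h2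
      refine ⟨i, n, hi, by omega, ?_, ?_⟩
      · rw [app_last]; exact h1
      · rw [app_ne (by omega)]; exact h3

theorem not_bI {n : ℕ} {e : ℕ → ℕ} {w : ℕ} (h : mx n e < w) : ¬ bI n e w := by
  rintro ⟨i, j, h1, h2, h3, h4⟩
  have := le_mx (e := e) (show i < n by omega)
  omega

/-- The allowed values. -/
noncomputable def AI (n : ℕ) (e : ℕ → ℕ) : Finset ℕ := (range (n + 1)).filter fun a => ¬ bI n e a

/-- The first label. -/
noncomputable def hI (n : ℕ) (e : ℕ → ℕ) : ℕ := ((AI n e).filter (mx n e < ·)).card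

/-- The second label. -/
noncomputable def kI (n : ℕ) (e : ℕ → ℕ) : ℕ := ((AI n e).filter (· ≤ mx n e)).card

theorem IC.mx_lt {n : ℕ} {e : ℕ → ℕ} (h : IC n e) (hn : 1 ≤ n) : mx n e < n := by
  unfold mx
  rw [Finset.sup_lt_iff (show (⊥ : ℕ) < n from hn)]
  intro i hi
  have := h.le i (mem_range.1 hi)
  have := mem_range.1 hi
  omega

theorem hI_app {n : ℕ} {e : ℕ → ℕ} (h : IC n e) (hn : 1 ≤ n) {v : ℕ} (hv : v ∈ AI n e) :
    hI (n + 1) (app n e v) = if mx n e < v then ((AI n e).filter (v ≤ ·)).card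
      else hI n e + 1 := by
  have hv' := mem_filter.1 hv
  have hvn : v ≤ n := by have := mem_range.1 hv'.1; omega
  have hM := h.mx_lt hn
  unfold hI
  rw [mx_app]
  split_ifs with h1
  · rw [max_eq_left h1.le, ← card_image_of_injective ((AI n e).filter (v ≤ ·)) Nat.succ_injective]
    congr 1
    ext x
    simp only [AI, mem_filter, mem_range, bI_app, mem_image]
    constructor
    · rintro ⟨⟨h2, h3⟩, h4⟩
      exact ⟨x - 1, ⟨⟨by omega, not_bI (by omega)⟩, by omega⟩, by omega⟩
    · rintro ⟨y, ⟨⟨h2, h3⟩, h4⟩, rfl⟩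
      refine ⟨⟨by omega, ?_⟩, by omega⟩
      push Not
      exact ⟨not_bI (by omega), fun _ => by omega⟩
  · have h1' : v ≤ mx n e := not_lt.1 h1
    rw [max_eq_right h1']
    have e1 : (AI (n + 1) (app n e v)).filter (mx n e < ·) =
        insert (mx n e + 1) (((AI n e).filter (mx n e < ·)).image Nat.succ) := by
      ext x
      simp only [AI, mem_filter, mem_range, bI_app, mem_image, mem_insert]
      constructor
      · rintro ⟨⟨h2, h3⟩, h4⟩
        rcases Nat.lt_or_ge (mx n e + 1) x with h5 | h5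
        · right
          exact ⟨x - 1, ⟨⟨by omega, not_bI (by omega)⟩, by omega⟩, by omega⟩
        · left; omega
      · rintro (rfl | ⟨y, ⟨⟨h2, h3⟩, h4⟩, rfl⟩)
        · refine ⟨⟨by omega, ?_⟩, by omega⟩
          push Not
          exact ⟨not_bI (by omega), fun _ => by omega⟩
        · refine ⟨⟨by omega, ?_⟩, by omega⟩
          push Not
          exact ⟨not_bI (by omega), fun _ => by omega⟩
    rw [e1, card_insert_of_notMem, card_image_of_injective _ Nat.succ_injective]
    simp only [mem_image, mem_filter, not_exists, not_and]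
    rintro y ⟨_, h2⟩ h3
    omega

theorem kI_app {n : ℕ} {e : ℕ → ℕ} (h : IC n e) (hn : 1 ≤ n) {v : ℕ} (hv : v ∈ AI n e) :
    kI (n + 1) (app n e v) = ((AI n e).filter (· ≤ v)).card := by
  have hv' := mem_filter.1 hv
  have hvn : v ≤ n := by have := mem_range.1 hv'.1; omega
  have hM := h.mx_lt hn
  unfold kI
  rw [mx_app]
  congr 1
  ext x
  simp only [AI, mem_filter, mem_range, bI_app]
  constructor
  · rintro ⟨⟨h2, h3⟩, h4⟩
    push Not at h3
    rcases le_total v (mx n e) with h5 | h5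
    · rw [max_eq_right h5] at h4
      refine ⟨⟨by omega, h3.1⟩, ?_⟩
      by_contra hc
      have := h3.2 (by omega)
      omega
    · rw [max_eq_left h5] at h4
      exact ⟨⟨by omega, h3.1⟩, h4⟩
  · rintro ⟨⟨h2, h3⟩, h4⟩
    refine ⟨⟨by omega, ?_⟩, h4.trans (le_max_left _ _)⟩
    push Not
    exact ⟨h3, fun _ => by omega⟩

theorem app_injective {n : ℕ} {e e' : ℕ → ℕ} (h : IC n e) (h' : IC n e') {v v' : ℕ}
    (he : app n e v = app n e' v') : e = e' ∧ v = v' := by
  have h1 := congrFun he n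
  rw [app_last, app_last] at h1
  refine ⟨?_, h1⟩
  funext i
  by_cases h2 : i = n
  · rw [h.zero i h2.ge, h'.zero i h2.ge]
  · have h3 := congrFun he i
    rwa [app_ne h2, app_ne h2] at h3

/-- The inversion sequences of length `m + 1` which avoid 101 and 201. -/
noncomputable def CI : ℕ → Finset (ℕ → ℕ)
  | 0 => {fun _ => 0}
  | m + 1 => (CI m).biUnion fun e => (AI (m + 1) e).image (app (m + 1) e)

theorem mem_CI (m : ℕ) (e : ℕ → ℕ) : e ∈ CI m ↔ IC (m + 1) e := by
  induction m generalizing e with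
  | zero =>
    rw [CI, mem_singleton]
    constructor
    · rintro rfl
      exact ⟨fun _ _ => rfl, fun i hi => by omega, fun i b d h1 h2 h3 => by omega⟩
    · intro h
      funext i
      rcases Nat.eq_zero_or_pos i with h1 | h1
      · subst h1; have := h.le 0 (by omega); omega
      · exact h.zero i (by omega)
  | succ m ih =>
    rw [CI, mem_biUnion]
    constructor
    · rintro ⟨g, hg, hf⟩
      obtain ⟨a, ha, rfl⟩ := mem_image.1 hf
      have ha' := mem_filter.1 ha
      exact ((ih g).1 hg).appMem (by have := mem_range.1 ha'.1; omega) ha'.2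
    · intro h
      obtain ⟨g, hg, h1, h2, h3⟩ := h.exists_app
      exact ⟨g, (ih g).2 hg, mem_image.2 ⟨e (m + 1), mem_filter.2 ⟨mem_range.2 (by omega), h2⟩, h3⟩⟩

theorem sum_CI_succ (m : ℕ) (g : ℕ → ℕ → ℕ) :
    ∑ f ∈ CI (m + 1), g (hI (m + 2) f) (kI (m + 2) f) =
      ∑ f ∈ CI m, T g (hI (m + 1) f) (kI (m + 1) f) := by
  rw [CI, sum_biUnion]
  · refine sum_congr rfl fun f hf => ?_
    have hIC := (mem_CI m f).1 hf
    rw [sum_image fun a _ a' _ e => (app_injective hIC hIC e).2]
    have := sum_high (AI (m + 1) f) (mx (m + 1) f) g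
    unfold hI kI at *
    rw [← this]
    refine sum_congr rfl fun a ha => ?_
    have e1 := hI_app hIC (by omega) ha
    have e2 := kI_app hIC (by omega) ha
    unfold hI at e1
    unfold kI at e2
    rw [show m + 2 = m + 1 + 1 from rfl, e1, e2]
    split_ifs <;> rfl
  · intro f hf f' hf' hne
    rw [Function.onFun, Finset.disjoint_left]
    intro F h1 h2
    obtain ⟨a, _, rfl⟩ := mem_image.1 h1
    obtain ⟨a', _, e⟩ := mem_image.1 h2
    exact hne (app_injective ((mem_CI m f').1 hf') ((mem_CI m f).1 hf) e).1.symm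

end Pool.Agent.X228.PP
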