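import Pool.Agent.X228.PP.Perm
import Pool.Agent.X228.PP.Inv

/-!
# Plane permutations and inversion sequences avoiding 101 and 201 are equinumerous
-/

namespace Pool.Agent.X228.PP

open Finset Classical

theorem base_P : hP 1 (fun _ => 0) = 1 ∧ kP 1 (fun _ => 0) = 1 := by
  have h : AP 1 (fun _ => 0) = {0, 1} := by
    ext x
    simp only [AP, mem_filter, mem_range, mem_insert, mem_singleton]
    constructor
    · rintro ⟨h, _⟩; omega
    · intro h
      refine ⟨by omega, ?_⟩
      rintro ⟨i, b, h1, h2, _⟩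
      omega
  unfold hP kP
  rw [h]
  constructor <;> simp [filter_insert, filter_singleton]

theorem base_I : hI 1 (fun _ => 0) = 1 ∧ kI 1 (fun _ => 0) = 1 := by
  have h : AI 1 (fun _ => 0) = {0, 1} := by
    ext x
    simp only [AI, mem_filter, mem_range, mem_insert, mem_singleton]
    constructor
    · rintro ⟨h, _⟩; omega
    · intro h
      refine ⟨by omega, ?_⟩
      rintro ⟨i, b, h1, h2, _⟩
      omega
  have h2 : mx 1 (fun _ => 0) = 0 := by simp [mx]
  unfold hI kI
  rw [h, h2]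
  constructor <;> simp [filter_insert, filter_singleton]

theorem sum_eq (m : ℕ) (g : ℕ → ℕ → ℕ) :
    ∑ f ∈ CP m, g (hP (m + 1) f) (kP (m + 1) f) = ∑ f ∈ CI m, g (hI (m + 1) f) (kI (m + 1) f) := by
  induction m generalizing g with
  | zero =>
    rw [CP, CI, sum_singleton, sum_singleton, base_P.1, base_P.2, base_I.1, base_I.2]
  | succ m ih =>
    rw [sum_CP_succ, sum_CI_succ]
    exact ih (T g)

theorem card_eq (m : ℕ) : (CP m).card = (CI m).card := by
  have := sum_eq m fun _ _ => 1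
  simpa using this

/-- Barred and vincular avoidance coincide. -/
theorem barred_iff {n : ℕ} (f : ℕ → ℕ) (hlt : ∀ i, i < n → f i < n)
    (hinj : ∀ i, i < n → ∀ j, j < n → f i = f j → i = j) :
    (∀ i j k l, i < j → j < k → k < l → l < n → f j < f i → f i < f l → f l < f k →
      ∃ m, j < m ∧ m < k ∧ f i < f m ∧ f m < f l) ↔
    ∀ i b d, i < b → b + 1 < d → d < n → f b < f i → f i < f d → f d < f (b + 1) → False := by
  constructor
  · intro h i b d h1 h2 h3 h4 h5 h6
    obtain ⟨m, h7, h8, _⟩ := h i b (b + 1) d h1 (by omega) h2 h3 h4 h5 h6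
    omega
  · intro h i j k l h1 h2 h3 h4 h5 h6 h7
    by_contra hc
    push Not at hc
    -- the first position after `j` with a value larger than `f l`
    have hex : ∃ m, j < m ∧ f l < f m := ⟨k, h2, h7⟩
    have hm := Nat.find_spec hex
    have hmin := fun m (hm : m < Nat.find hex) => Nat.find_min hex hm
    set m := Nat.find hex with hmdef
    have hmk : m ≤ k := Nat.find_min' hex ⟨h2, h7⟩
    obtain ⟨b, hb⟩ : ∃ b, m = b + 1 := ⟨m - 1, by omega⟩
    have hbi : f b < f i := by
      rcases Nat.lt_or_ge j b with h8 | h8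
      · have h9 := hmin b (by omega)
        push Not at h9
        have h10 := h9 h8
        have h11 : f b ≠ f l := fun e => by
          have := hinj b (by omega) l h4 e
          omega
        have h12 : f b ≠ f i := fun e => by
          have := hinj b (by omega) i (by omega) e
          omega
        by_contra h13
        have := hc b h8 (by omega) (by omega)
        omega
      · have : b = j := by omega
        rw [this]; exact h5
    refine h i b l (by omega) (by omega) h4 hbi h6 ?_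
    rw [← hb]
    exact hm.2

/-- A function of `Fin n` as a function of `ℕ`. -/
def toN {n : ℕ} (s : Fin n → Fin n) : ℕ → ℕ := fun i => if h : i < n then (s ⟨i, h⟩ : ℕ) else 0

theorem toN_val {n : ℕ} (s : Fin n → Fin n) (i : Fin n) : toN s i = s i := by
  simp [toN]

theorem toN_lt {n : ℕ} (s : Fin n → Fin n) {i : ℕ} (h : i < n) : toN s i = s ⟨i, h⟩ := by
  simp [toN, h]

theorem toN_ge {n : ℕ} (s : Fin n → Fin n) {i : ℕ} (h : n ≤ i) : toN s i = 0 := by
  simp [toN, not_lt.2 h]

theorem toN_injective {n : ℕ} {s t : Fin n → Fin n} (h : toN s = toN t) : s = t := by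
  funext i
  have := congrFun h i
  rw [toN_val, toN_val] at this
  exact Fin.ext this

theorem PC_toN {m : ℕ} (σ : Equiv.Perm (Fin (m + 1))) :
    PC (m + 1) (toN σ) ↔ ∀ i j k l : Fin (m + 1), i < j → j < k → k < l →
          σ j < σ i → σ i < σ l → σ l < σ k →
          ∃ m : Fin (m + 1), j < m ∧ m < k ∧ σ i < σ m ∧ σ m < σ l := by
  have hlt : ∀ i, i < m + 1 → toN σ i < m + 1 := fun i hi => by
    rw [toN_lt _ hi]; exact (σ ⟨i, hi⟩).2
  have hinj : ∀ i, i < m + 1 → ∀ j, j < m + 1 → toN σ i = toN σ j → i = j := by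
    intro i hi j hj h
    rw [toN_lt _ hi, toN_lt _ hj] at h
    exact congrArg Fin.val (σ.injective (Fin.ext h))
  have hb := barred_iff (toN σ) hlt hinj
  constructor
  · intro h i j k l h1 h2 h3 h4 h5 h6
    obtain ⟨a, h7, h8, h9, h10⟩ := hb.2 h.av i j k l h1 h2 h3 l.2 (by rw [toN_val, toN_val]; exact h4)
      (by rw [toN_val, toN_val]; exact h5) (by rw [toN_val, toN_val]; exact h6)
    have ha : a < m + 1 := by omega
    refine ⟨⟨a, ha⟩, h7, h8, ?_, ?_⟩
    · rw [toN_val, toN_lt _ ha] at h9; exact h9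
    · rw [toN_val, toN_lt _ ha] at h10; exact h10
  · intro h
    refine ⟨fun i hi => toN_ge _ hi, hlt, hinj, hb.1 ?_⟩
    intro i j k l h1 h2 h3 h4 h5 h6 h7
    have hi : i < m + 1 := by omega
    have hj : j < m + 1 := by omega
    have hk : k < m + 1 := by omega
    rw [toN_lt _ hj, toN_lt _ hi] at h5
    rw [toN_lt _ hi, toN_lt _ h4] at h6
    rw [toN_lt _ h4, toN_lt _ hk] at h7
    obtain ⟨a, h8, h9, h10, h11⟩ := h ⟨i, hi⟩ ⟨j, hj⟩ ⟨k, hk⟩ ⟨l, h4⟩ h1 h2 h3 h5 h6 h7
    refine ⟨a, h8, h9, ?_, ?_⟩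
    · rw [toN_val, toN_lt _ hi]; exact h10
    · rw [toN_val, toN_lt _ h4]; exact h11

theorem card_perm (m : ℕ) :
    Nat.card {σ : Equiv.Perm (Fin (m + 1)) //
        ∀ i j k l : Fin (m + 1), i < j → j < k → k < l →
          σ j < σ i → σ i < σ l → σ l < σ k →
          ∃ m : Fin (m + 1), j < m ∧ m < k ∧ σ i < σ m ∧ σ m < σ l} = (CP m).card := by
  have h : Nat.card {f // f ∈ CP m} = (CP m).card := by
    rw [Nat.card_eq_fintype_card, Fintype.card_coe]
  rw [← h]
  refine Nat.card_congr (Equiv.ofBijective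
    (fun σ => ⟨toN σ.1, (mem_CP m _).2 ((PC_toN σ.1).2 σ.2)⟩) ⟨?_, ?_⟩)
  · intro σ τ h
    have h1 : toN σ.1 = toN τ.1 := congrArg Subtype.val h
    exact Subtype.ext (Equiv.ext fun i => congrFun (toN_injective h1) i)
  · rintro ⟨f, hf⟩
    have hP := (mem_CP m f).1 hf
    have h1 : Function.Injective fun i : Fin (m + 1) => (⟨f i, hP.lt i i.2⟩ : Fin (m + 1)) := by
      intro i j hij
      exact Fin.ext (hP.inj i i.2 j j.2 (congrArg Fin.val hij))
    set σ : Equiv.Perm (Fin (m + 1)) := Equiv.ofBijective _ (Finite.injective_iff_bijective.1 h1)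
      with hσ
    have h2 : toN σ = f := by
      funext i
      rcases Nat.lt_or_ge i (m + 1) with h3 | h3
      · rw [toN_lt _ h3]; rfl
      · rw [toN_ge _ h3, hP.zero i h3]
    exact ⟨⟨σ, (PC_toN σ).1 (h2 ▸ hP)⟩, Subtype.ext h2⟩

theorem IC_toN {m : ℕ} (e : Fin (m + 1) → Fin (m + 1)) :
    IC (m + 1) (toN e) ↔ (∀ i : Fin (m + 1), (e i).val ≤ i.val) ∧
        ∀ i j k : Fin (m + 1), i < j → j < k →
          ¬ (e i = e k ∧ e j < e i) ∧ ¬ (e j < e k ∧ e k < e i) := by
  constructor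
  · intro h
    refine ⟨fun i => ?_, fun i j k h1 h2 => ⟨?_, ?_⟩⟩
    · have := h.le i i.2
      rwa [toN_val] at this
    · rintro ⟨h3, h4⟩
      have h5 : (e k : ℕ) = e i := by rw [h3]
      have h6 : (e j : ℕ) < e i := h4
      refine h.av i j k h1 h2 k.2 ?_ ?_
      · rw [toN_val, toN_val]; omega
      · rw [toN_val, toN_val]; omega
    · rintro ⟨h3, h4⟩
      have h5 : (e k : ℕ) < e i := h4
      have h6 : (e j : ℕ) < e k := h3
      refine h.av i j k h1 h2 k.2 ?_ ?_
      · rw [toN_val, toN_val]; omega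
      · rw [toN_val, toN_val]; omega
  · rintro ⟨h1, h2⟩
    refine ⟨fun i hi => toN_ge _ hi, fun i hi => ?_, fun i j k h3 h4 h5 h6 h7 => ?_⟩
    · rw [toN_lt _ hi]; exact h1 ⟨i, hi⟩
    · have hi : i < m + 1 := by omega
      have hj : j < m + 1 := by omega
      rw [toN_lt _ hj, toN_lt _ h5] at h6
      rw [toN_lt _ h5, toN_lt _ hi] at h7
      obtain ⟨h8, h9⟩ := h2 ⟨i, hi⟩ ⟨j, hj⟩ ⟨k, h5⟩ h3 h4
      rcases Nat.lt_or_ge (e ⟨k, h5⟩ : ℕ) (e ⟨i, hi⟩ : ℕ) with h10 | h10
      · exact h9 ⟨h6, h10⟩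
      · have h11 : e ⟨i, hi⟩ = e ⟨k, h5⟩ := Fin.ext (by omega)
        exact h8 ⟨h11, by rw [h11]; exact h6⟩

theorem card_inv (m : ℕ) :
    Nat.card {e : Fin (m + 1) → Fin (m + 1) //
        (∀ i : Fin (m + 1), (e i).val ≤ i.val) ∧
        ∀ i j k : Fin (m + 1), i < j → j < k →
          ¬ (e i = e k ∧ e j < e i) ∧ ¬ (e j < e k ∧ e k < e i)} = (CI m).card := by
  have h : Nat.card {f // f ∈ CI m} = (CI m).card := by
    rw [Nat.card_eq_fintype_card, Fintype.card_coe]
  rw [← h]
  refine Nat.card_congr (Equiv.ofBijective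
    (fun e => ⟨toN e.1, (mem_CI m _).2 ((IC_toN e.1).2 e.2)⟩) ⟨?_, ?_⟩)
  · intro σ τ h
    have h1 : toN σ.1 = toN τ.1 := congrArg Subtype.val h
    exact Subtype.ext (toN_injective h1)
  · rintro ⟨f, hf⟩
    have hI := (mem_CI m f).1 hf
    set e : Fin (m + 1) → Fin (m + 1) := fun i => ⟨f i, by have := hI.le i i.2; omega⟩ with he
    have h2 : toN e = f := by
      funext i
      rcases Nat.lt_or_ge i (m + 1) with h3 | h3
      · rw [toN_lt _ h3]
      · rw [toN_ge _ h3, hI.zero i h3]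
    exact ⟨⟨e, (IC_toN e).1 (h2 ▸ hI)⟩, Subtype.ext h2⟩

/-- Plane permutations and inversion sequences avoiding 101 and 201 are equinumerous. -/
theorem main (n : ℕ) :
    Nat.card {σ : Equiv.Perm (Fin n) //
        ∀ i j k l : Fin n, i < j → j < k → k < l →
          σ j < σ i → σ i < σ l → σ l < σ k →
          ∃ m : Fin n, j < m ∧ m < k ∧ σ i < σ m ∧ σ m < σ l}
      =
      Nat.card {e : Fin n → Fin n //
        (∀ i : Fin n, (e i).val ≤ i.val) ∧
        ∀ i j k : Fin n, i < j → j < k →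
          ¬ (e i = e k ∧ e j < e i) ∧ ¬ (e j < e k ∧ e k < e i)} := by
  rcases n with _ | m
  · refine Nat.card_congr ⟨fun _ => ⟨fun i => i.elim0, fun i => i.elim0, fun i => i.elim0⟩,
      fun _ => ⟨1, fun i => i.elim0⟩, fun x => Subtype.ext (Equiv.ext fun i => i.elim0),
      fun x => Subtype.ext (funext fun i => i.elim0)⟩
  · rw [card_perm, card_inv, card_eq]

end Pool.Agent.X228.PP
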