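import Mathlib

/-!
# Plane permutations and inversion sequences avoiding 101 and 201: generating trees

Both classes grow along the generating tree with root `(1, 1)` and the rule
`(h, k) → (i, h + k + 1 - i)`, `1 ≤ i ≤ h`, and `(h + 1, j)`, `1 ≤ j ≤ k`.
-/

namespace Pool.Agent.X228.PP

open Finset

/-- The rule of the generating tree, acting on weights. -/
def T (g : ℕ → ℕ → ℕ) (h k : ℕ) : ℕ :=
  ∑ i ∈ range h, g (i + 1) (h + k - i) + ∑ j ∈ range k, g (h + 1) (j + 1)

theorem sum_rank (A : Finset ℕ) (F : ℕ → ℕ) :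
    ∑ a ∈ A, F ((A.filter (· ≤ a)).card) = ∑ i ∈ range A.card, F (i + 1) := by
  induction A using Finset.induction_on_max with
  | empty => simp
  | insert a s ha ih =>
    have hn : a ∉ s := fun h => lt_irrefl _ (ha a h)
    rw [sum_insert hn, card_insert_of_notMem hn, sum_range_succ, add_comm]
    congr 1
    · rw [← ih]
      refine sum_congr rfl fun x hx => ?_
      congr 2
      ext y
      simp only [mem_filter, mem_insert]
      constructor
      · rintro ⟨h1 | h1, h2⟩
        · subst h1; exact absurd h2 (not_le.2 (ha x hx))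
        · exact ⟨h1, h2⟩
      · rintro ⟨h1, h2⟩; exact ⟨Or.inr h1, h2⟩
    · congr 1
      have : (insert a s).filter (· ≤ a) = insert a s := by
        apply filter_true_of_mem
        intro x hx
        rcases mem_insert.1 hx with h | h
        · exact h.le
        · exact (ha x h).le
      rw [this, card_insert_of_notMem hn]

theorem sum_rank' (A : Finset ℕ) (F : ℕ → ℕ) :
    ∑ a ∈ A, F ((A.filter (a ≤ ·)).card) = ∑ i ∈ range A.card, F (i + 1) := by
  induction A using Finset.induction_on_min with
  | empty => simp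
  | insert a s ha ih =>
    have hn : a ∉ s := fun h => lt_irrefl _ (ha a h)
    rw [sum_insert hn, card_insert_of_notMem hn, sum_range_succ, add_comm]
    congr 1
    · rw [← ih]
      refine sum_congr rfl fun x hx => ?_
      congr 2
      ext y
      simp only [mem_filter, mem_insert]
      constructor
      · rintro ⟨h1 | h1, h2⟩
        · subst h1; exact absurd h2 (not_le.2 (ha x hx))
        · exact ⟨h1, h2⟩
      · rintro ⟨h1, h2⟩; exact ⟨Or.inr h1, h2⟩
    · congr 1
      have : (insert a s).filter (a ≤ ·) = insert a s := by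
        apply filter_true_of_mem
        intro x hx
        rcases mem_insert.1 hx with h | h
        · exact h.ge
        · exact (ha x h).le
      rw [this, card_insert_of_notMem hn]

theorem le_add_ge (A : Finset ℕ) {a : ℕ} (ha : a ∈ A) :
    (A.filter (a ≤ ·)).card + (A.filter (· ≤ a)).card = A.card + 1 := by
  have h1 : A.filter (a ≤ ·) ∪ A.filter (· ≤ a) = A := by
    ext x
    simp only [mem_union, mem_filter]
    constructor
    · rintro (h | h) <;> exact h.1
    · intro h
      rcases le_total a x with h' | h'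
      · exact Or.inl ⟨h, h'⟩
      · exact Or.inr ⟨h, h'⟩
  have h2 : A.filter (a ≤ ·) ∩ A.filter (· ≤ a) = {a} := by
    ext x
    simp only [mem_inter, mem_filter, mem_singleton]
    constructor
    · rintro ⟨⟨_, h⟩, _, h'⟩; exact le_antisymm h' h
    · rintro rfl; exact ⟨⟨ha, le_rfl⟩, ha, le_rfl⟩
  have := card_union_add_card_inter (A.filter (a ≤ ·)) (A.filter (· ≤ a))
  rw [h1, h2, card_singleton] at this
  omega

/-- Lower part first. -/
theorem sum_low (A : Finset ℕ) (l : ℕ) (g : ℕ → ℕ → ℕ) :
    ∑ a ∈ A, (if a ≤ l then g ((A.filter (· ≤ a)).card) ((A.filter (a ≤ ·)).card)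
      else g ((A.filter (· ≤ l)).card + 1) ((A.filter (a ≤ ·)).card)) =
    T g ((A.filter (· ≤ l)).card) ((A.filter (l < ·)).card) := by
  set P := A.filter (· ≤ l) with hP
  set Q := A.filter (l < ·) with hQ
  have hQ' : A.filter (fun x => ¬ x ≤ l) = Q := by
    rw [hQ]; exact filter_congr fun x _ => not_le
  have hc : P.card + Q.card = A.card := by
    have := card_filter_add_card_filter_not (s := A) (· ≤ l)
    rw [hQ'] at this
    exact this
  rw [← sum_filter_add_sum_filter_not A (· ≤ l), hQ', ← hP]
  unfold T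
  congr 1
  · have h1 := sum_rank P fun i => g i (P.card + Q.card + 1 - i)
    have h2 : ∑ i ∈ range P.card, g (i + 1) (P.card + Q.card + 1 - (i + 1)) =
        ∑ i ∈ range P.card, g (i + 1) (P.card + Q.card - i) :=
      sum_congr rfl fun i _ => by rw [show P.card + Q.card + 1 - (i + 1) = P.card + Q.card - i by omega]
    rw [← h2, ← h1]
    refine sum_congr rfl fun a ha => ?_
    have ha' := mem_filter.1 ha
    rw [if_pos ha'.2]
    have h3 : P.filter (· ≤ a) = A.filter (· ≤ a) := by
      ext x
      simp only [hP, mem_filter]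
      constructor
      · rintro ⟨⟨h1, _⟩, h2⟩; exact ⟨h1, h2⟩
      · rintro ⟨h1, h2⟩; exact ⟨⟨h1, h2.trans ha'.2⟩, h2⟩
    rw [h3]
    have h4 := le_add_ge A ha'.1
    congr 1
    omega
  · have h1 := sum_rank' Q fun i => g (P.card + 1) i
    rw [← h1]
    refine sum_congr rfl fun a ha => ?_
    have ha' := mem_filter.1 ha
    rw [if_neg (not_le.2 ha'.2)]
    congr 2
    ext x
    simp only [hQ, mem_filter]
    constructor
    · rintro ⟨h1, h2⟩; exact ⟨⟨h1, ha'.2.trans_le h2⟩, h2⟩
    · rintro ⟨⟨h1, _⟩, h2⟩; exact ⟨h1, h2⟩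

/-- Upper part first. -/
theorem sum_high (A : Finset ℕ) (l : ℕ) (g : ℕ → ℕ → ℕ) :
    ∑ a ∈ A, (if l < a then g ((A.filter (a ≤ ·)).card) ((A.filter (· ≤ a)).card)
      else g ((A.filter (l < ·)).card + 1) ((A.filter (· ≤ a)).card)) =
    T g ((A.filter (l < ·)).card) ((A.filter (· ≤ l)).card) := by
  set P := A.filter (l < ·) with hP
  set Q := A.filter (· ≤ l) with hQ
  have hQ' : A.filter (fun x => ¬ l < x) = Q := by
    rw [hQ]; exact filter_congr fun x _ => not_lt
  have hc : P.card + Q.card = A.card := by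
    have := card_filter_add_card_filter_not (s := A) (l < ·)
    rw [hQ'] at this
    exact this
  rw [← sum_filter_add_sum_filter_not A (l < ·), hQ', ← hP]
  unfold T
  congr 1
  · have h1 := sum_rank' P fun i => g i (P.card + Q.card + 1 - i)
    have h2 : ∑ i ∈ range P.card, g (i + 1) (P.card + Q.card + 1 - (i + 1)) =
        ∑ i ∈ range P.card, g (i + 1) (P.card + Q.card - i) :=
      sum_congr rfl fun i _ => by rw [show P.card + Q.card + 1 - (i + 1) = P.card + Q.card - i by omega]
    rw [← h2, ← h1]
    refine sum_congr rfl fun a ha => ?_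
    have ha' := mem_filter.1 ha
    rw [if_pos ha'.2]
    have h3 : P.filter (a ≤ ·) = A.filter (a ≤ ·) := by
      ext x
      simp only [hP, mem_filter]
      constructor
      · rintro ⟨⟨h1, _⟩, h2⟩; exact ⟨h1, h2⟩
      · rintro ⟨h1, h2⟩; exact ⟨⟨h1, ha'.2.trans_le h2⟩, h2⟩
    rw [h3]
    have h4 := le_add_ge A ha'.1
    congr 1
    omega
  · have h1 := sum_rank Q fun i => g (P.card + 1) i
    rw [← h1]
    refine sum_congr rfl fun a ha => ?_
    have ha' := mem_filter.1 ha
    rw [if_neg (not_lt.2 ha'.2)]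
    congr 2
    ext x
    simp only [hQ, mem_filter]
    constructor
    · rintro ⟨h1, h2⟩; exact ⟨⟨h1, h2.trans ha'.2⟩, h2⟩
    · rintro ⟨⟨h1, _⟩, h2⟩; exact ⟨h1, h2⟩

end Pool.Agent.X228.PP
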