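import Pool.Agent.X228.PP.Core

/-!
# Plane permutations: insertion of a last entry
-/

namespace Pool.Agent.X228.PP

open Finset Classical

/-- `f` restricted to `{0, ..., n-1}` is a plane permutation, and `f` is zero elsewhere. -/
structure PC (n : ℕ) (f : ℕ → ℕ) : Prop where
  zero : ∀ i, n ≤ i → f i = 0
  lt : ∀ i, i < n → f i < n
  inj : ∀ i, i < n → ∀ j, j < n → f i = f j → i = j
  av : ∀ i b d, i < b → b + 1 < d → d < n → f b < f i → f i < f d → f d < f (b + 1) → False

/-- The site `a` is forbidden. -/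
def bP (n : ℕ) (f : ℕ → ℕ) (a : ℕ) : Prop :=
  ∃ i b, i < b ∧ b + 1 < n ∧ f b < f i ∧ f i < a ∧ a ≤ f (b + 1)

/-- Insertion of a last entry `a`. -/
def ins (n : ℕ) (f : ℕ → ℕ) (a : ℕ) : ℕ → ℕ := fun i =>
  if i < n then (if f i < a then f i else f i + 1) else if i = n then a else 0

theorem ins_lt {n : ℕ} {f : ℕ → ℕ} {a i : ℕ} (h : i < n) :
    ins n f a i = if f i < a then f i else f i + 1 := by simp [ins, h]

theorem ins_last {n : ℕ} {f : ℕ → ℕ} {a : ℕ} : ins n f a n = a := by simp [ins]

theorem ins_gt {n : ℕ} {f : ℕ → ℕ} {a i : ℕ} (h : n < i) : ins n f a i = 0 := by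
  simp [ins, not_lt.2 h.le, h.ne']

theorem PC.surj {n : ℕ} {f : ℕ → ℕ} (h : PC n f) {v : ℕ} (hv : v < n) : ∃ i, i < n ∧ f i = v := by
  have h1 : Function.Injective fun i : Fin n => (⟨f i, h.lt i i.2⟩ : Fin n) := by
    intro i j hij
    exact Fin.ext (h.inj i i.2 j j.2 (congrArg Fin.val hij))
  obtain ⟨i, hi⟩ := Finite.injective_iff_surjective.1 h1 ⟨v, hv⟩
  exact ⟨i, i.2, congrArg Fin.val hi⟩

theorem PC.insMem {n : ℕ} {f : ℕ → ℕ} (h : PC n f) {a : ℕ} (ha : a ≤ n) (hb : ¬ bP n f a) :
    PC (n + 1) (ins n f a) where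
  zero i hi := ins_gt (by omega)
  lt i hi := by
    rcases Nat.lt_succ_iff_lt_or_eq.1 hi with h1 | h1
    · rw [ins_lt h1]; have := h.lt i h1; split_ifs <;> omega
    · rw [h1, ins_last]; omega
  inj i hi j hj hij := by
    rcases Nat.lt_succ_iff_lt_or_eq.1 hi with h1 | h1 <;>
      rcases Nat.lt_succ_iff_lt_or_eq.1 hj with h2 | h2
    · rw [ins_lt h1, ins_lt h2] at hij
      apply h.inj i h1 j h2
      split_ifs at hij <;> omega
    · rw [ins_lt h1, h2, ins_last] at hij
      split_ifs at hij <;> omega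
    · rw [ins_lt h2, h1, ins_last] at hij
      split_ifs at hij <;> omega
    · omega
  av i b d h1 h2 h3 h4 h5 h6 := by
    rw [ins_lt (show b < n by omega), ins_lt (show i < n by omega)] at h4
    rw [ins_lt (show i < n by omega)] at h5
    rw [ins_lt (show b + 1 < n by omega)] at h6
    rcases Nat.lt_succ_iff_lt_or_eq.1 h3 with h7 | h7
    · rw [ins_lt h7] at h5 h6
      apply h.av i b d h1 h2 h7
      · split_ifs at h4 <;> omega
      · split_ifs at h5 <;> omega
      · split_ifs at h6 <;> omega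
    · subst h7
      rw [ins_last] at h5 h6
      apply hb
      refine ⟨i, b, h1, by omega, ?_, ?_, ?_⟩
      · split_ifs at h4 <;> omega
      · split_ifs at h5 <;> omega
      · split_ifs at h6 <;> omega

theorem PC.exists_ins {n : ℕ} {F : ℕ → ℕ} (h : PC (n + 1) F) :
    ∃ f, PC n f ∧ F n ≤ n ∧ ¬ bP n f (F n) ∧ ins n f (F n) = F := by
  set a := F n with ha
  have hne : ∀ i, i < n → F i ≠ a := fun i hi e => by
    have := h.inj i (by omega) n (by omega) e
    omega
  have han : a ≤ n := by have := h.lt n (by omega); omega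
  refine ⟨fun i => if i < n then (if F i < a then F i else F i - 1) else 0, ?_, han, ?_, ?_⟩
  · constructor
    · intro i hi
      simp [not_lt.2 hi]
    · intro i hi
      have := h.lt i (by omega)
      have h2 := hne i hi
      simp only [hi, if_true]
      split_ifs <;> omega
    · intro i hi j hj hij
      apply h.inj i (by omega) j (by omega)
      have h1 := hne i hi
      have h2 := hne j hj
      simp only [hi, hj, if_true] at hij
      split_ifs at hij <;> omega
    · intro i b d h1 h2 h3 h4 h5 h6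
      simp only [show i < n by omega, show b < n by omega, h3, show b + 1 < n by omega,
        if_true] at h4 h5 h6
      have e1 := hne i (by omega)
      have e2 := hne b (by omega)
      have e3 := hne d h3
      have e4 := hne (b + 1) (by omega)
      apply h.av i b d h1 h2 (by omega)
      · split_ifs at h4 <;> omega
      · split_ifs at h5 <;> omega
      · split_ifs at h6 <;> omega
  · rintro ⟨i, b, h1, h2, h3, h4, h5⟩
    simp only [show i < n by omega, show b < n by omega, h2, if_true] at h3 h4 h5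
    have e1 := hne i (by omega)
    have e2 := hne b (by omega)
    have e4 := hne (b + 1) (by omega)
    refine h.av i b n h1 (by omega) (by omega) ?_ ?_ ?_
    · split_ifs at h3 <;> omega
    · split_ifs at h4 <;> omega
    · split_ifs at h5 <;> omega
  · funext i
    rcases lt_trichotomy i n with h1 | h1 | h1
    · rw [ins_lt h1]
      have e1 := hne i h1
      simp only [h1, if_true]
      split_ifs <;> omega
    · rw [h1, ins_last]
    · rw [ins_gt h1, h.zero i (by omega)]

/-- The old position of a site. -/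
def tt (a a' : ℕ) : ℕ := if a' ≤ a then a' else a' - 1

theorem bP_ins {n : ℕ} {f : ℕ → ℕ} (h : PC n f) {a a' : ℕ} (ha : a ≤ n) :
    bP (n + 1) (ins n f a) a' ↔ bP n f (tt a a') ∨ (f (n - 1) + 1 < a' ∧ a' ≤ a) := by
  unfold tt
  constructor
  · rintro ⟨i, b, h1, h2, h3, h4, h5⟩
    rw [ins_lt (show b < n by omega), ins_lt (show i < n by omega)] at h3
    rw [ins_lt (show i < n by omega)] at h4
    rcases Nat.lt_succ_iff_lt_or_eq.1 h2 with h7 | h7
    · rw [ins_lt h7] at h5
      left
      refine ⟨i, b, h1, h7, ?_, ?_, ?_⟩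
      · split_ifs at h3 <;> omega
      · split_ifs at h4 ⊢ <;> omega
      · split_ifs at h5 ⊢ <;> omega
    · rw [h7, ins_last] at h5
      right
      have h8 : n - 1 = b := by omega
      rw [h8]
      constructor
      · split_ifs at h3 h4 <;> omega
      · exact h5
  · rintro (⟨i, b, h1, h2, h3, h4, h5⟩ | ⟨h1, h2⟩)
    · refine ⟨i, b, h1, by omega, ?_, ?_, ?_⟩
      · rw [ins_lt (show b < n by omega), ins_lt (show i < n by omega)]
        split_ifs <;> omega
      · rw [ins_lt (show i < n by omega)]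
        split_ifs at h4 ⊢ <;> omega
      · rw [ins_lt h2]
        split_ifs at h5 ⊢ <;> omega
    · obtain ⟨i, hi, hfi⟩ := h.surj (v := f (n - 1) + 1) (by omega)
      have hin : i ≠ n - 1 := by rintro rfl; omega
      refine ⟨i, n - 1, by omega, by omega, ?_, ?_, ?_⟩
      · rw [ins_lt (show n - 1 < n by omega), ins_lt hi, hfi]
        split_ifs <;> omega
      · rw [ins_lt hi, hfi]
        split_ifs <;> omega
      · rw [show n - 1 + 1 = n by omega, ins_last]
        exact h2

theorem not_bP_succ {n : ℕ} {f : ℕ → ℕ} (h : PC n f) (hn : 1 ≤ n) : ¬ bP n f (f (n - 1) + 1) := by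
  rintro ⟨i, b, h1, h2, h3, h4, h5⟩
  have h6 : b + 1 ≠ n - 1 := fun e => by rw [e] at h5; omega
  have h7 : f i ≠ f (n - 1) := fun e => by
    have := h.inj i (by omega) (n - 1) (by omega) e
    omega
  exact h.av i b (n - 1) h1 (by omega) (by omega) h3 (by omega) (by omega)

/-- The active sites. -/
noncomputable def AP (n : ℕ) (f : ℕ → ℕ) : Finset ℕ := (range (n + 1)).filter fun a => ¬ bP n f a

/-- The first label. -/
noncomputable def hP (n : ℕ) (f : ℕ → ℕ) : ℕ := ((AP n f).filter (· ≤ f (n - 1))).card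

/-- The second label. -/
noncomputable def kP (n : ℕ) (f : ℕ → ℕ) : ℕ := ((AP n f).filter (f (n - 1) < ·)).card

theorem hP_ins {n : ℕ} {f : ℕ → ℕ} (h : PC n f) (hn : 1 ≤ n) {a : ℕ} (ha : a ∈ AP n f) :
    hP (n + 1) (ins n f a) = if a ≤ f (n - 1) then ((AP n f).filter (· ≤ a)).card
      else hP n f + 1 := by
  have ha' := mem_filter.1 ha
  have han : a ≤ n := by have := mem_range.1 ha'.1; omega
  have e1 : (AP (n + 1) (ins n f a)).filter (· ≤ (ins n f a) (n + 1 - 1)) =
      (AP n f).filter (fun x => x ≤ a ∧ x ≤ f (n - 1) + 1) := by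
    rw [show n + 1 - 1 = n by omega, ins_last]
    ext x
    simp only [AP, mem_filter, mem_range, bP_ins h han, tt]
    constructor
    · rintro ⟨⟨h1, h2⟩, h3⟩
      rw [if_pos h3] at h2
      push Not at h2
      refine ⟨⟨by omega, h2.1⟩, h3, ?_⟩
      by_contra hc
      have := h2.2 (by omega)
      omega
    · rintro ⟨⟨h1, h2⟩, h3, h4⟩
      refine ⟨⟨by omega, ?_⟩, h3⟩
      rw [if_pos h3]
      push Not
      exact ⟨h2, fun h5 => by omega⟩
  unfold hP
  rw [e1]
  split_ifs with h1
  · congr 1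
    refine filter_congr fun x _ => ?_
    constructor
    · rintro ⟨h2, _⟩; exact h2
    · intro h2; exact ⟨h2, by omega⟩
  · have e2 : (AP n f).filter (fun x => x ≤ a ∧ x ≤ f (n - 1) + 1) =
        insert (f (n - 1) + 1) ((AP n f).filter (· ≤ f (n - 1))) := by
      ext x
      simp only [mem_filter, mem_insert]
      constructor
      · rintro ⟨h2, h3, h4⟩
        rcases Nat.lt_or_ge (f (n - 1)) x with h5 | h5
        · left; omega
        · right; exact ⟨h2, h5⟩
      · rintro (h2 | ⟨h2, h3⟩)
        · subst h2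
          refine ⟨mem_filter.2 ⟨mem_range.2 (by omega), not_bP_succ h hn⟩, by omega, le_rfl⟩
        · exact ⟨h2, by omega, by omega⟩
    rw [e2, card_insert_of_notMem (by simp)]

theorem kP_ins {n : ℕ} {f : ℕ → ℕ} (h : PC n f) {a : ℕ} (ha : a ∈ AP n f) :
    kP (n + 1) (ins n f a) = ((AP n f).filter (a ≤ ·)).card := by
  have ha' := mem_filter.1 ha
  have han : a ≤ n := by have := mem_range.1 ha'.1; omega
  unfold kP
  rw [show n + 1 - 1 = n by omega, ins_last,
    ← card_image_of_injective ((AP n f).filter (a ≤ ·)) Nat.succ_injective]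
  congr 1
  ext x
  simp only [AP, mem_filter, mem_range, bP_ins h han, tt, mem_image]
  constructor
  · rintro ⟨⟨h1, h2⟩, h3⟩
    rw [if_neg (not_le.2 h3)] at h2
    push Not at h2
    exact ⟨x - 1, ⟨⟨by omega, h2.1⟩, by omega⟩, by omega⟩
  · rintro ⟨y, ⟨⟨h1, h2⟩, h3⟩, rfl⟩
    refine ⟨⟨by omega, ?_⟩, by omega⟩
    rw [if_neg (by omega)]
    push Not
    exact ⟨by simpa using h2, fun h5 => by omega⟩

theorem ins_injective {n : ℕ} {f f' : ℕ → ℕ} (h : PC n f) (h' : PC n f') {a a' : ℕ}
    (e : ins n f a = ins n f' a') : f = f' ∧ a = a' := by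
  have h1 := congrFun e n
  rw [ins_last, ins_last] at h1
  subst h1
  refine ⟨?_, rfl⟩
  funext i
  rcases Nat.lt_or_ge i n with h2 | h2
  · have h3 := congrFun e i
    rw [ins_lt h2, ins_lt h2] at h3
    split_ifs at h3 <;> omega
  · rw [h.zero i h2, h'.zero i h2]

/-- The plane permutations of length `m + 1`. -/
noncomputable def CP : ℕ → Finset (ℕ → ℕ)
  | 0 => {fun _ => 0}
  | m + 1 => (CP m).biUnion fun f => (AP (m + 1) f).image (ins (m + 1) f)

theorem mem_CP (m : ℕ) (f : ℕ → ℕ) : f ∈ CP m ↔ PC (m + 1) f := by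
  induction m generalizing f with
  | zero =>
    rw [CP, mem_singleton]
    constructor
    · rintro rfl
      exact ⟨fun _ _ => rfl, fun i hi => by omega, fun i hi j hj _ => by omega,
        fun i b d h1 h2 h3 => by omega⟩
    · intro h
      funext i
      rcases Nat.eq_zero_or_pos i with h1 | h1
      · subst h1; have := h.lt 0 (by omega); omega
      · exact h.zero i (by omega)
  | succ m ih =>
    rw [CP, mem_biUnion]
    constructor
    · rintro ⟨g, hg, hf⟩
      obtain ⟨a, ha, rfl⟩ := mem_image.1 hf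
      have ha' := mem_filter.1 ha
      exact ((ih g).1 hg).insMem (by have := mem_range.1 ha'.1; omega) ha'.2
    · intro h
      obtain ⟨g, hg, h1, h2, h3⟩ := h.exists_ins
      exact ⟨g, (ih g).2 hg, mem_image.2 ⟨f (m + 1), mem_filter.2 ⟨mem_range.2 (by omega), h2⟩, h3⟩⟩

theorem sum_CP_succ (m : ℕ) (g : ℕ → ℕ → ℕ) :
    ∑ f ∈ CP (m + 1), g (hP (m + 2) f) (kP (m + 2) f) =
      ∑ f ∈ CP m, T g (hP (m + 1) f) (kP (m + 1) f) := by
  rw [CP, sum_biUnion]
  · refine sum_congr rfl fun f hf => ?_
    have hPC := (mem_CP m f).1 hf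
    rw [sum_image fun a _ a' _ e => (ins_injective hPC hPC e).2]
    have := sum_low (AP (m + 1) f) (f (m + 1 - 1)) g
    unfold hP kP at *
    rw [← this]
    refine sum_congr rfl fun a ha => ?_
    have e1 := hP_ins hPC (by omega) ha
    have e2 := kP_ins hPC ha
    unfold hP at e1
    unfold kP at e2
    rw [show m + 2 = m + 1 + 1 from rfl, e1, e2]
    split_ifs <;> rfl
  · intro f hf f' hf' hne
    rw [Function.onFun, Finset.disjoint_left]
    intro F h1 h2
    obtain ⟨a, _, rfl⟩ := mem_image.1 h1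
    obtain ⟨a', _, e⟩ := mem_image.1 h2
    exact hne (ins_injective ((mem_CP m f').1 hf') ((mem_CP m f).1 hf) e).1.symm

end Pool.Agent.X228.PP
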